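import Pool.Agent.helper89.PU.Spec1

/-!
# Row `KLP` (MP_2e0e07_nt, project PU): a polynomial which annihilates `X ↦ V X V⁻¹`
-/

set_option autoImplicit false

namespace Pool.Agent.PV

open Matrix Polynomial Pool.Agent.GO Pool.Agent.AR Pool.Agent.RG Pool.Agent.HZ Pool.Agent.DS
  Pool.Agent.AX Pool.Agent.UM Pool.Agent.PU MeasureTheory NumberField

section KLPaux

variable {A m : Type} [CommRing A] [Fintype m] [DecidableEq m]

/-- the matrix `f (X V)` over `A[X]` -/
noncomputable def KLP_M (V : Matrix m m A) (φ : A[X]) : Matrix m m A[X] :=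
  Matrix.of fun i j => ∑ k ∈ Finset.range (φ.natDegree + 1), monomial k (φ.coeff k * (V ^ k) i j)

lemma KLP_MP (V : Matrix m m A) (φ : A[X]) :
    matPolyEquiv (KLP_M V φ) = ∑ k ∈ Finset.range (φ.natDegree + 1), monomial k (φ.coeff k • V ^ k) := by
  ext n i j
  rw [matPolyEquiv_coeff_apply]
  simp only [KLP_M, Matrix.of_apply, finsetSum_coeff, coeff_monomial]
  rw [Matrix.sum_apply]
  refine Finset.sum_congr rfl fun k _ => ?_
  split_ifs with h
  · simp
  · simp

/-- the linear map `Q ↦ ∑ n, V ^ n * Y * Q.coeff n * V' ^ n` -/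
noncomputable def KLP_T (V V' Y : Matrix m m A) : (Matrix m m A)[X] →ₗ[A] Matrix m m A :=
  Polynomial.lsum fun n => (LinearMap.mulRight A (V' ^ n)).comp (LinearMap.mulLeft A (V ^ n * Y))

lemma KLP_T_monomial (V V' Y B : Matrix m m A) (n : ℕ) :
    KLP_T V V' Y (monomial n B) = V ^ n * Y * B * V' ^ n := by
  simp only [KLP_T, Polynomial.lsum_apply]
  rw [Polynomial.sum_monomial_index]
  · simp [Matrix.mul_assoc]
  · simp

lemma KLP_pow (V V' : Matrix m m A) (h1 : V * V' = 1) (n : ℕ) : V ^ n * V' ^ n = 1 := by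
  induction n with
  | zero => simp
  | succ n ih =>
    rw [pow_succ, pow_succ', Matrix.mul_assoc, ← Matrix.mul_assoc V V', h1, Matrix.one_mul, ih]

lemma KLP_ann (V V' Y : Matrix m m A) (h1 : V * V' = 1) (Q : (Matrix m m A)[X]) :
    KLP_T V V' Y (Q * matPolyEquiv (KLP_M V V.charpoly)) = 0 := by
  have hCH : ∑ k ∈ Finset.range (V.charpoly.natDegree + 1), V.charpoly.coeff k • V ^ k = 0 := by
    rw [← Polynomial.aeval_eq_sum_range, Matrix.aeval_self_charpoly]
  induction Q using Polynomial.induction_on' with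
  | add p q hp hq => rw [add_mul, map_add, hp, hq, add_zero]
  | monomial s B =>
    rw [KLP_MP, Finset.mul_sum, map_sum]
    have hk : ∀ k ∈ Finset.range (V.charpoly.natDegree + 1),
        KLP_T V V' Y (monomial s B * monomial k (V.charpoly.coeff k • V ^ k)) =
          V ^ s * (V.charpoly.coeff k • V ^ k) * (Y * B * V' ^ s) := by
      intro k _
      rw [monomial_mul_monomial, KLP_T_monomial]
      have e1 : V ^ k * V' ^ (s + k) = V' ^ s := by
        rw [add_comm s k, pow_add, ← Matrix.mul_assoc, KLP_pow V V' h1, Matrix.one_mul]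
      calc V ^ (s + k) * Y * (B * (V.charpoly.coeff k • V ^ k)) * V' ^ (s + k)
          = V.charpoly.coeff k • (V ^ s * V ^ k * (Y * B * (V ^ k * V' ^ (s + k)))) := by
            simp only [pow_add, Matrix.mul_smul, Matrix.smul_mul, Matrix.mul_assoc]
        _ = _ := by
            rw [e1]
            simp only [Matrix.mul_smul, Matrix.smul_mul, Matrix.mul_assoc]
    rw [Finset.sum_congr rfl hk, ← Finset.sum_mul, ← Finset.mul_sum, hCH]
    simp

lemma KLP_one (V V' Y : Matrix m m A) (h1 : V * V' = 1) :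
    ∑ k ∈ Finset.range ((KLP_M V V.charpoly).det.natDegree + 1),
      (KLP_M V V.charpoly).det.coeff k • (V ^ k * Y * V' ^ k) = 0 := by
  set c := (KLP_M V V.charpoly).det with hc
  have h2 : matPolyEquiv ((KLP_M V V.charpoly).adjugate) * matPolyEquiv (KLP_M V V.charpoly) =
      c.map (algebraMap A (Matrix m m A)) := by
    rw [← map_mul, Matrix.adjugate_mul, matPolyEquiv_smul_one]
  have h3 := KLP_ann V V' Y h1 (matPolyEquiv ((KLP_M V V.charpoly).adjugate))
  rw [h2] at h3
  have h4 : c.map (algebraMap A (Matrix m m A)) =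
      ∑ k ∈ Finset.range (c.natDegree + 1), monomial k (algebraMap A (Matrix m m A) (c.coeff k)) := by
    conv_lhs => rw [Polynomial.as_sum_range c]
    rw [Polynomial.map_sum]
    simp only [Polynomial.map_monomial]
  rw [h4, map_sum] at h3
  rw [← h3]
  refine Finset.sum_congr rfl fun k _ => ?_
  rw [KLP_T_monomial, Algebra.algebraMap_eq_smul_one, Matrix.mul_smul, Matrix.mul_one, Matrix.smul_mul]

lemma KLP_det {K : Type} [Field K] (W : Matrix m m K) (l : m → K)
    (hl : W.charpoly = ∏ i, (X - C (l i))) (x : K) (hx : x ≠ 0) (y : K) :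
    (x • W - y • (1 : Matrix m m K)).det = ∏ j, (x * l j - y) := by
  have h1 : x • W - y • (1 : Matrix m m K) = (-x) • (Matrix.scalar m (y / x) - W) := by
    ext i j
    by_cases hij : i = j
    · subst hij
      simp
      field_simp
      ring
    · simp [Matrix.one_apply_ne hij, Matrix.diagonal_apply_ne _ hij]
  have h2 : (Matrix.scalar m (y / x) - W).det = ∏ j, (y / x - l j) := by
    rw [← Matrix.eval_charpoly, hl, Polynomial.eval_prod]
    simp
  rw [h1, Matrix.det_smul, h2, ← Finset.card_univ, ← Finset.prod_const, ← Finset.prod_mul_distrib]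
  refine Finset.prod_congr rfl fun j _ => ?_
  field_simp
  ring

lemma KLP_two (V : Matrix m m A) {K : Type} [Field K] (f : A →+* K) (l : m → K)
    (hl : (V.map f).charpoly = ∏ i, (X - C (l i))) (x : K) (hx : x ≠ 0) :
    (((KLP_M V V.charpoly).det).map f).eval x = ∏ i, ∏ j, (x * l j - l i) := by
  have h1 : (((KLP_M V V.charpoly).det).map f).eval x =
      ((KLP_M V V.charpoly).map (Polynomial.eval₂RingHom f x)).det := by
    rw [Polynomial.eval_map, ← Polynomial.coe_eval₂RingHom, RingHom.map_det, RingHom.mapMatrix_apply]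
  have h2 : (KLP_M V V.charpoly).map (Polynomial.eval₂RingHom f x) =
      aeval (x • V.map f) (V.map f).charpoly := by
    have h3 : (V.map f).charpoly = V.charpoly.map f := Matrix.charpoly_map V f
    have h4 : V.map f = f.mapMatrix V := rfl
    rw [h3, Polynomial.aeval_def, Polynomial.eval₂_map, Polynomial.eval₂_eq_sum_range]
    ext i j
    rw [Matrix.sum_apply]
    have h6 : (KLP_M V V.charpoly).map (Polynomial.eval₂RingHom f x) i j =
        ∑ k ∈ Finset.range (V.charpoly.natDegree + 1), f (V.charpoly.coeff k * (V ^ k) i j) * x ^ k := by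
      show Polynomial.eval₂RingHom f x (∑ k ∈ Finset.range (V.charpoly.natDegree + 1),
        monomial k (V.charpoly.coeff k * (V ^ k) i j)) = _
      rw [map_sum]
      simp only [Polynomial.coe_eval₂RingHom, Polynomial.eval₂_monomial]
    rw [h6]
    refine Finset.sum_congr rfl fun k _ => ?_
    rw [RingHom.comp_apply, _root_.smul_pow, Algebra.algebraMap_eq_smul_one, h4, ← map_pow]
    simp [Matrix.smul_apply]
    ring
  rw [h1, h2, hl]
  have h5 : ∀ q : K[X], (aeval (x • V.map f) q).det =
      (Matrix.detMonoidHom.comp ((aeval (x • V.map f) : K[X] →ₐ[K] Matrix m m K) : K[X] →* Matrix m m K)) q := by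
    intro q
    rfl
  rw [h5, map_prod]
  refine Finset.prod_congr rfl fun i _ => ?_
  rw [← h5, map_sub, aeval_X, aeval_C, Algebra.algebraMap_eq_smul_one]
  exact KLP_det _ l hl x hx (l i)

end KLPaux

theorem KLP : KLP_stmt := by
  intro A m _ _ _ V V' h1 _
  exact ⟨(KLP_M V V.charpoly).det, fun Y => KLP_one V V' Y h1,
    fun f l hl x hx => KLP_two V f l hl x hx⟩

end Pool.Agent.PV
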